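import Pool.Agent.Helper36.EV.Goals

/-! CAU: Cauchy property of the approximate solutions (packet of project EV). -/

set_option linter.unusedVariables false
set_option linter.unusedSectionVars false

namespace Pool.Agent.Helper19.EV

open Set Filter Topology
open Pool.Agent.Helper36.EV

variable {X H : Type} [AddCommGroup X] [Module ℝ X] [NormedAddCommGroup H] [NormedSpace ℝ H]

/-- derivative of `q m (T (g t))` for a bounded linear map `T` -/
theorem hasDeriv_qT (S : Scale X H) {H' : Type} [NormedAddCommGroup H'] [NormedSpace ℝ H']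
    (m : ℕ) (T : H' →ₗ[ℝ] X) (C : ℝ) (hC0 : 0 ≤ C) (hC : ∀ h, S.nrm m (T h) ≤ C * ‖h‖)
    {g : ℝ → H'} {g' : H'} {I : Set ℝ} {t : ℝ} (hd : HasDerivWithinAt g g' I t) :
    HasDerivWithinAt (fun s => S.q m (T (g s))) (2 * S.B m (T (g t)) (T g')) I t := by
  obtain ⟨b, hb⟩ : ∃ b : H' →L[ℝ] H' →L[ℝ] ℝ, ∀ h k, b h k = S.B m (T h) (T k) := by
    refine ⟨LinearMap.mkContinuous₂ ((S.B m).compl₁₂ T T) (C * C) fun h k => ?_, fun h k => rfl⟩
    rw [LinearMap.compl₁₂_apply, Real.norm_eq_abs]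
    refine (S.abs_B_le m _ _).trans ?_
    calc S.nrm m (T h) * S.nrm m (T k) ≤ (C * ‖h‖) * (C * ‖k‖) := by
          exact mul_le_mul (hC h) (hC k) (S.nrm_nonneg _ _) (mul_nonneg hC0 (norm_nonneg _))
      _ = C * C * ‖h‖ * ‖k‖ := by ring
  have h1 : (fun s => S.q m (T (g s))) = fun s => b (g s) (g s) := by
    funext s
    rw [hb]; rfl
  rw [h1]
  have h3 : HasDerivWithinAt (fun s => b (g s) (g s)) (b g' (g t) + b (g t) g') I t :=
    (b.hasFDerivAt.comp_hasDerivWithinAt t hd).clm_apply hd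
  have h5 : b g' (g t) + b (g t) g' = 2 * S.B m (T (g t)) (T g') := by
    rw [hb, hb, S.symm m (T g') (T (g t))]
    ring
  rw [← h5]
  exact h3

/-- derivative of the squared norm of the difference of two approximate solutions -/
theorem hasDeriv_diff (S : Scale X H) (E : Evo S) (n l m : ℕ) {h k : ℝ → H} {h' k' : H}
    {I : Set ℝ} {t : ℝ} (hd : HasDerivWithinAt h h' I t) (kd : HasDerivWithinAt k k' I t) :
    HasDerivWithinAt (fun s => S.q m (E.ap n h s - E.ap l k s))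
      (2 * S.B m (E.ap n h t - E.ap l k t) (S.J n h' - S.J l k')) I t := by
  obtain ⟨C1, hC1, h1⟩ := S.bJ' n m
  obtain ⟨C2, hC2, h2⟩ := S.bJ' l m
  have key := hasDeriv_qT S m
    ((S.J n).comp (LinearMap.fst ℝ H H) - (S.J l).comp (LinearMap.snd ℝ H H)) (C1 + C2)
    (add_nonneg hC1 hC2) (fun p => by
      rw [LinearMap.sub_apply, LinearMap.comp_apply, LinearMap.comp_apply, LinearMap.fst_apply,
        LinearMap.snd_apply]
      refine (S.nrm_sub_le m _ _).trans ?_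
      have e1 := (h1 p.1).trans (mul_le_mul_of_nonneg_left (norm_fst_le p) hC1)
      have e2 := (h2 p.2).trans (mul_le_mul_of_nonneg_left (norm_snd_le p) hC2)
      rw [add_mul]
      exact add_le_add e1 e2) (hd.prodMk kd)
  have e1 : ∀ s, E.ap n h s - E.ap l k s = S.J n (h s) - S.J l (k s) := by
    intro s
    simp only [Evo.ap]
    abel
  simp only [LinearMap.sub_apply, LinearMap.comp_apply, LinearMap.fst_apply,
    LinearMap.snd_apply] at key
  rw [e1]
  simp_rw [e1]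
  exact key

/-- the difference of two smoothings -/
theorem nrm_J_sub (S : Scale X H) (n l : ℕ) (y : X) (N : ℝ) (hy : S.nrm 1 y ≤ N) :
    S.nrm 0 (S.J l (S.ι y) - S.J n (S.ι y)) ≤ (|S.ε n| + |S.ε l|) * N := by
  have h1 := S.nrm_tri 0 (S.J l (S.ι y)) y (S.J n (S.ι y))
  have h2 := S.nrm_err l 0 y
  have h3 := S.nrm_err n 0 y
  rw [S.nrm_sub_comm 0 y (S.J n (S.ι y))] at h1
  have h4 : |S.ε l| * S.nrm (0 + 1) y ≤ |S.ε l| * N :=
    mul_le_mul_of_nonneg_left hy (abs_nonneg _)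
  have h5 : |S.ε n| * S.nrm (0 + 1) y ≤ |S.ε n| * N :=
    mul_le_mul_of_nonneg_left hy (abs_nonneg _)
  rw [add_mul]
  linarith

theorem q_sub_le (S : Scale X H) (m : ℕ) (y z : X) :
    S.q m (y - z) ≤ 2 * (S.q m y + S.q m z) := by
  have h1 := S.q_nonneg m (y + z)
  rw [S.q_add] at h1
  have h2 := S.q_add m y (-z)
  rw [← sub_eq_add_neg, S.q_neg, map_neg] at h2
  linarith

theorem cau : G_CAU := by
  intro hGW hHIGH X H _ _ _ _ S E m δ hδ
  have hGron := hGW.1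
  have hH := fun m => hHIGH hGW X H S E m
  obtain ⟨L4, hL4⟩ := hH E.m4
  obtain ⟨C, hC⟩ := E.F4 L4
  obtain ⟨m1, hm1⟩ := E.F1 0
  obtain ⟨L5, hL5⟩ := hH m1
  obtain ⟨K2, hK2⟩ := hm1 L5
  obtain ⟨L1, hL1⟩ := hH 1
  obtain ⟨mi, Ci, hCi⟩ := S.interp m
  obtain ⟨Li, hLi⟩ := hH mi
  set K := Real.sqrt |K2| with hK
  set N := Real.sqrt |L1| with hN
  have hK0 : 0 ≤ K := Real.sqrt_nonneg _
  have hN0 : 0 ≤ N := Real.sqrt_nonneg _
  have hFb : ∀ n h, E.Sol n h → ∀ t ∈ Icc 0 E.τ, S.nrm 0 (E.F t (E.sap n h t)) ≤ K := by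
    intro n h hs t ht
    have h1 := hK2 t ⟨ht.1, ht.2.trans E.hτT⟩ _ (hL5 n h hs t ht).2
    exact Real.sqrt_le_sqrt (h1.trans (le_abs_self _))
  have hyb : ∀ n h, E.Sol n h → ∀ t ∈ Icc 0 E.τ, S.nrm 1 (E.ap n h t) ≤ N := by
    intro n h hs t ht
    exact Real.sqrt_le_sqrt ((hL1 n h hs t ht).1.trans (le_abs_self _))
  set G : ℝ → ℝ := fun e => |Ci| * (Real.exp (4 * |C| * E.τ) *
    ((4 * |C| * e ^ 2 * N ^ 2 + 4 * e * N * K) * E.τ)) * (4 * |Li|) with hG
  have hGc : Tendsto G (𝓝 0) (𝓝 0) := by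
    have h1 : Continuous G := by rw [hG]; fun_prop
    have h0 : G 0 = 0 := by simp [hG]
    have h2 := h1.tendsto 0
    rwa [h0] at h2
  have hGe : ∀ᶠ e in 𝓝 (0 : ℝ), G e < δ ^ 2 := hGc.eventually (gt_mem_nhds (by positivity))
  obtain ⟨η, hη, hη'⟩ := Metric.eventually_nhds_iff.1 hGe
  have hεn : ∀ᶠ n in atTop, |S.ε n| < η / 2 := by
    have h1 := S.hε.eventually (Metric.ball_mem_nhds 0 (half_pos hη))
    filter_upwards [h1] with n hn
    simpa [Real.dist_eq] using hn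
  obtain ⟨n1, hn1⟩ := eventually_atTop.1 hεn
  refine ⟨n1, fun n hn l hl h k hs ks t ht => ?_⟩
  set e := |S.ε n| + |S.ε l| with he
  have he0 : 0 ≤ e := by positivity
  have hed : dist e 0 < η := by
    rw [Real.dist_eq, sub_zero, abs_of_nonneg he0, he]
    linarith [hn1 n hn, hn1 l hl]
  have hder : ∀ s ∈ Icc 0 E.τ,
      HasDerivWithinAt (fun s => S.q 0 (E.ap n h s - E.ap l k s))
        (2 * S.B 0 (E.ap n h s - E.ap l k s) (S.J n (S.ι (E.F s (E.sap n h s))) -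
          S.J l (S.ι (E.F s (E.sap l k s))))) (Icc 0 E.τ) s ∧
      2 * S.B 0 (E.ap n h s - E.ap l k s) (S.J n (S.ι (E.F s (E.sap n h s))) -
          S.J l (S.ι (E.F s (E.sap l k s)))) ≤
        (4 * |C|) * S.q 0 (E.ap n h s - E.ap l k s) +
          (4 * |C| * e ^ 2 * N ^ 2 + 4 * e * N * K) := by
    intro s hsI
    refine ⟨hasDeriv_diff S E n l 0 (hs.der s hsI) (ks.der s hsI), ?_⟩
    have hx : E.sap n h s = S.J n (S.ι (E.ap n h s)) := rfl
    have hx' : E.sap l k s = S.J l (S.ι (E.ap l k s)) := rfl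
    have hadm := hs.adm' s hsI
    have hadm' := ks.adm' s hsI
    have hF := hFb n h hs s hsI
    have hF' := hFb l k ks s hsI
    have hy := hyb n h hs s hsI
    have hy' := hyb l k ks s hsI
    have h4 := (hL4 n h hs s hsI).2
    have h4' := (hL4 l k ks s hsI).2
    have hCC := hC s ⟨hsI.1, hsI.2.trans E.hτT⟩ (E.sap n h s) (E.sap l k s) hadm.1 hadm.2
      hadm'.1 hadm'.2 h4 h4'
    set x := E.sap n h s with hxd
    set x' := E.sap l k s with hxd'
    set y := E.ap n h s with hyd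
    set y' := E.ap l k s with hyd'
    set F := E.F s x with hFd
    set F' := E.F s x' with hFd'
    have hJn : S.J n (S.ι (y - y')) = (x - x') + (S.J l (S.ι y') - S.J n (S.ι y')) := by
      rw [map_sub, map_sub, hx, hx']; abel
    have hJl : S.J l (S.ι (y - y')) = (x - x') + (S.J l (S.ι y) - S.J n (S.ι y)) := by
      rw [map_sub, map_sub, hx, hx']; abel
    have e1 : S.B 0 (y - y') (S.J n (S.ι F) - S.J l (S.ι F')) =
        S.B 0 (x - x') (F - F') + S.B 0 (S.J l (S.ι y') - S.J n (S.ι y')) F -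
          S.B 0 (S.J l (S.ι y) - S.J n (S.ι y)) F' := by
      rw [map_sub, ← S.symJ, ← S.symJ, hJn, hJl, map_add, map_add, LinearMap.add_apply,
        LinearMap.add_apply, map_sub (S.B 0 (x - x'))]
      ring
    have b1 : S.B 0 (x - x') (F - F') ≤ |C| * S.q 0 (x - x') :=
      hCC.trans (mul_le_mul_of_nonneg_right (le_abs_self C) (S.q_nonneg 0 _))
    have n1' := nrm_J_sub S n l y' N hy'
    have n2' := nrm_J_sub S n l y N hy
    rw [← he] at n1' n2'
    have b2 : S.B 0 (S.J l (S.ι y') - S.J n (S.ι y')) F ≤ e * N * K :=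
      (S.B_le 0 _ _).trans (mul_le_mul n1' hF (S.nrm_nonneg _ _) (by positivity))
    have b3 : - S.B 0 (S.J l (S.ι y) - S.J n (S.ι y)) F' ≤ e * N * K :=
      (neg_le_abs _).trans ((S.abs_B_le 0 _ _).trans
        (mul_le_mul n2' hF' (S.nrm_nonneg _ _) (by positivity)))
    have b4 : S.nrm 0 (x - x') ≤ S.nrm 0 (y - y') + e * N := by
      have h1 : x - x' = S.J n (S.ι (y - y')) - (S.J l (S.ι y') - S.J n (S.ι y')) := by
        rw [hJn]; abel
      rw [h1]
      refine (S.nrm_sub_le 0 _ _).trans ?_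
      exact add_le_add (S.nrm_J_le n 0 _) n1'
    have b5 : S.q 0 (x - x') ≤ 2 * S.q 0 (y - y') + 2 * (e * N) ^ 2 := by
      have h1 := S.q_le_of_nrm_le b4
      have h2 := S.nrm_sq 0 (y - y')
      nlinarith [sq_nonneg (S.nrm 0 (y - y') - e * N)]
    have b6 : |C| * S.q 0 (x - x') ≤ |C| * (2 * S.q 0 (y - y') + 2 * (e * N) ^ 2) :=
      mul_le_mul_of_nonneg_left b5 (abs_nonneg _)
    rw [e1]
    nlinarith [b1, b2, b3, b6]
  have hφ := hGron (fun s => S.q 0 (E.ap n h s - E.ap l k s)) _ (4 * |C|)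
    (4 * |C| * e ^ 2 * N ^ 2 + 4 * e * N * K) E.τ (by positivity) (by positivity) hder t ht
  have hφ0 : S.q 0 (E.ap n h 0 - E.ap l k 0) = 0 := by
    simp [Evo.ap, hs.h0, ks.h0, S.q_zero]
  beta_reduce at hφ
  rw [hφ0, zero_add] at hφ
  have hbb : 0 ≤ 4 * |C| * e ^ 2 * N ^ 2 + 4 * e * N * K := by positivity
  have hφ1 : S.q 0 (E.ap n h t - E.ap l k t) ≤ Real.exp (4 * |C| * E.τ) *
      ((4 * |C| * e ^ 2 * N ^ 2 + 4 * e * N * K) * E.τ) := by
    refine hφ.trans ?_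
    have h1 : Real.exp (4 * |C| * t) ≤ Real.exp (4 * |C| * E.τ) :=
      Real.exp_le_exp.2 (mul_le_mul_of_nonneg_left ht.2 (by positivity))
    exact mul_le_mul h1 (mul_le_mul_of_nonneg_left ht.2 hbb)
      (mul_nonneg hbb ht.1) (Real.exp_pos _).le
  have hq2 : S.q mi (E.ap n h t - E.ap l k t) ≤ 4 * |Li| := by
    have h1 := q_sub_le S mi (E.ap n h t) (E.ap l k t)
    have h2 := (hLi n h hs t ht).1
    have h3 := (hLi l k ks t ht).1
    have h4 := le_abs_self Li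
    linarith
  have h1 := hCi (E.ap n h t - E.ap l k t)
  have h2 : (S.q m (E.ap n h t - E.ap l k t)) ^ 2 ≤ G e := by
    refine h1.trans ?_
    change Ci * S.q 0 (E.ap n h t - E.ap l k t) * S.q mi (E.ap n h t - E.ap l k t) ≤ G e
    rw [hG]
    have h5 : Ci * S.q 0 (E.ap n h t - E.ap l k t) ≤ |Ci| * (Real.exp (4 * |C| * E.τ) *
        ((4 * |C| * e ^ 2 * N ^ 2 + 4 * e * N * K) * E.τ)) := by
      refine (mul_le_mul_of_nonneg_right (le_abs_self Ci) (S.q_nonneg 0 _)).trans ?_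
      exact mul_le_mul_of_nonneg_left hφ1 (abs_nonneg _)
    have h6 : 0 ≤ |Ci| * (Real.exp (4 * |C| * E.τ) *
        ((4 * |C| * e ^ 2 * N ^ 2 + 4 * e * N * K) * E.τ)) := by
      have := E.hτ.le
      positivity
    exact mul_le_mul h5 hq2 (S.q_nonneg _ _) h6
  have h3 : (S.q m (E.ap n h t - E.ap l k t)) ^ 2 ≤ δ ^ 2 := h2.trans (hη' hed).le
  exact le_of_sq_le_sq h3 hδ.le

end Pool.Agent.Helper19.EV
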